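import Mathlib
import Pool.Agent.RobinBall.Defs

/-!
# Rank one perturbations of a multiple of the identity, and a determinant inequality
-/

set_option autoImplicit false

open Set Filter
open scoped Topology

namespace Pool.Agent.RobinBall.Rad

open Pool.Agent.RobinBall

variable {m : ℕ}

/-- The endomorphism `b • id + c • x ⊗ x`. -/
noncomputable def rk (b c : ℝ) (x : Em m) : Em m →L[ℝ] Em m :=
  b • ContinuousLinearMap.id ℝ (Em m) + c • (innerSL ℝ x).smulRight x

theorem rk_apply (b c : ℝ) (x v : Em m) : rk b c x v = b • v + (c * inner ℝ x v) • x := by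
  simp [rk, smul_smul]

theorem trc_rk_comp (b c : ℝ) (x : Em m) (M : Em m →L[ℝ] Em m) :
    trc ((rk b c x).comp M) = b * trc M + c * inner ℝ x (M x) := by
  have h : (((rk b c x).comp M : Em m →L[ℝ] Em m) : Em m →ₗ[ℝ] Em m) =
      b • (M : Em m →ₗ[ℝ] Em m) +
        c • (((innerSL ℝ x).comp M : Em m →L[ℝ] ℝ) : Em m →ₗ[ℝ] ℝ).smulRight x := by
    ext1 v
    simp [rk_apply, smul_smul]
  rw [trc, h, map_add, map_smul, map_smul, LinearMap.trace_smulRight]
  simp [trc]

theorem trc_id : trc (ContinuousLinearMap.id ℝ (Em m)) = m + 1 := by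
  rw [trc]
  have : ((ContinuousLinearMap.id ℝ (Em m) : Em m →L[ℝ] Em m) : Em m →ₗ[ℝ] Em m) =
      LinearMap.id := rfl
  rw [this, LinearMap.trace_id]
  simp

theorem trc_rk (b c : ℝ) (x : Em m) : trc (rk b c x) = b * (m + 1) + c * ‖x‖ ^ 2 := by
  have := trc_rk_comp b c x (ContinuousLinearMap.id ℝ (Em m))
  rw [ContinuousLinearMap.comp_id, trc_id] at this
  rw [this, ContinuousLinearMap.id_apply, real_inner_self_eq_norm_sq]

theorem rk_comp_rk (b c b' c' : ℝ) (x : Em m) :
    (rk b c x).comp (rk b' c' x) = rk (b * b') (b * c' + c * b' + c * c' * ‖x‖ ^ 2) x := by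
  ext1 v
  rw [ContinuousLinearMap.comp_apply, rk_apply, rk_apply, rk_apply, inner_add_right,
    real_inner_smul_right, real_inner_smul_right, real_inner_self_eq_norm_sq]
  module

theorem det_rk {b : ℝ} (hb : b ≠ 0) (c : ℝ) (x : Em m) :
    LinearMap.det ((rk b c x : Em m →L[ℝ] Em m) : Em m →ₗ[ℝ] Em m) =
      b ^ m * (b + c * ‖x‖ ^ 2) := by
  have h : ((rk b c x : Em m →L[ℝ] Em m) : Em m →ₗ[ℝ] Em m) =
      b • LinearMap.transvection ((c / b) • ((innerSL ℝ x : Em m →L[ℝ] ℝ) : Em m →ₗ[ℝ] ℝ)) x := by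
    ext1 v
    simp [rk_apply, LinearMap.transvection, smul_smul]
    field_simp
  rw [h, LinearMap.det_smul, LinearMap.transvection.det]
  simp only [LinearMap.smul_apply, ContinuousLinearMap.coe_coe, innerSL_apply_apply,
    real_inner_self_eq_norm_sq, smul_eq_mul, finrank_euclideanSpace, Fintype.card_fin]
  field_simp
  ring

theorem rk_adjoint (b c : ℝ) (x : Em m) : ContinuousLinearMap.adjoint (rk b c x) = rk b c x := by
  symm
  rw [ContinuousLinearMap.eq_adjoint_iff]
  intro u v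
  rw [rk_apply, rk_apply, inner_add_left, inner_add_right, real_inner_smul_left,
    real_inner_smul_left, real_inner_smul_right, real_inner_smul_right, real_inner_comm u x]
  ring

theorem conj_pos {M : Em m →L[ℝ] Em m} (hM : M.IsPositive) (b c : ℝ) (x : Em m) :
    ((rk b c x).comp (M.comp (rk b c x))).IsPositive := by
  have := hM.conj_adjoint (rk b c x)
  rwa [rk_adjoint] at this

theorem trc_conj (M : Em m →L[ℝ] Em m) (b c : ℝ) {e : Em m} (he : ‖e‖ = 1) :
    trc ((rk b c e).comp (M.comp (rk b c e))) =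
      b ^ 2 * (trc M - inner ℝ e (M e)) + (b + c) ^ 2 * inner ℝ e (M e) := by
  have h1 : trc ((rk b c e).comp (M.comp (rk b c e))) =
      trc (((rk b c e).comp (rk b c e)).comp M) := by
    have := LinearMap.trace_mul_comm ℝ
      (((rk b c e).comp M : Em m →L[ℝ] Em m) : Em m →ₗ[ℝ] Em m)
      ((rk b c e : Em m →L[ℝ] Em m) : Em m →ₗ[ℝ] Em m)
    exact this
  rw [h1, rk_comp_rk, trc_rk_comp, he]
  ring

theorem inner_nonneg' {M : Em m →L[ℝ] Em m} (hM : M.IsPositive) (e : Em m) :
    0 ≤ inner ℝ e (M e) := by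
  simpa using hM.inner_nonneg_right e

theorem trc_nonneg {M : Em m →L[ℝ] Em m} (hM : M.IsPositive) : 0 ≤ trc M :=
  LinearMap.IsPositive.trace_nonneg hM

theorem inner_le_trc {M : Em m →L[ℝ] Em m} (hM : M.IsPositive) {e : Em m} (he : ‖e‖ = 1) :
    inner ℝ e (M e) ≤ trc M := by
  have h := trc_nonneg (conj_pos hM 1 (-1) e)
  rw [trc_conj M 1 (-1) he] at h
  linarith

theorem det_le_one {N : Em m →L[ℝ] Em m} (hN : N.IsPositive) (ht : trc N ≤ m + 1) :
    LinearMap.det (N : Em m →ₗ[ℝ] Em m) ≤ 1 := by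
  have hs : (N : Em m →ₗ[ℝ] Em m).IsSymmetric := hN.isSymmetric
  have hn : Module.finrank ℝ (Em m) = m + 1 := by simp
  have hpos : (N : Em m →ₗ[ℝ] Em m).IsPositive := hN
  rw [hs.det_eq_prod_eigenvalues hn]
  rw [trc, hs.trace_eq_sum_eigenvalues hn] at ht
  have hev := hpos.nonneg_eigenvalues hn
  simp only [RCLike.ofReal_real_eq_id, id] at ht ⊢
  calc ∏ i, hs.eigenvalues hn i ≤ ∏ i : Fin (m + 1), Real.exp (hs.eigenvalues hn i - 1) := by
        apply Finset.prod_le_prod
        · intro i _; exact hev i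
        · intro i _
          have := Real.add_one_le_exp (hs.eigenvalues hn i - 1)
          linarith
    _ = Real.exp (∑ i : Fin (m + 1), (hs.eigenvalues hn i - 1)) := (Real.exp_sum _ _).symm
    _ ≤ 1 := by
        rw [Real.exp_le_one_iff, Finset.sum_sub_distrib]
        simp only [Finset.sum_const, Finset.card_univ, Fintype.card_fin, nsmul_eq_mul, mul_one]
        push_cast
        linarith

theorem det_le (hm : 1 ≤ m) {M : Em m →L[ℝ] Em m} (hM : M.IsPositive) {e : Em m} (he : ‖e‖ = 1) :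
    LinearMap.det (M : Em m →ₗ[ℝ] Em m) ≤
      inner ℝ e (M e) * ((trc M - inner ℝ e (M e)) / m) ^ m := by
  set ξ : ℝ := inner ℝ e (M e) with hξ
  set η : ℝ := (trc M - ξ) / m with hη
  have hm0 : (0 : ℝ) < m := by exact_mod_cast hm
  have hξ0 : 0 ≤ ξ := inner_nonneg' hM e
  have hη0 : 0 ≤ η := div_nonneg (sub_nonneg.2 (inner_le_trc hM he)) hm0.le
  have hT : trc M - ξ = m * η := by rw [hη]; field_simp
  have key : ∀ ε : ℝ, 0 < ε → LinearMap.det (M : Em m →ₗ[ℝ] Em m) ≤ (ξ + ε) * (η + ε) ^ m := by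
    intro ε hε
    have h1 : 0 < ξ + ε := by positivity
    have h2 : 0 < η + ε := by positivity
    set b : ℝ := Real.sqrt (1 / (η + ε)) with hb
    set d : ℝ := Real.sqrt (1 / (ξ + ε)) with hd
    have hb2 : b ^ 2 = 1 / (η + ε) := Real.sq_sqrt (by positivity)
    have hd2 : d ^ 2 = 1 / (ξ + ε) := Real.sq_sqrt (by positivity)
    have hb0 : b ≠ 0 := (Real.sqrt_pos.2 (by positivity)).ne'
    have hN := conj_pos hM b (d - b) e
    have hdet := det_le_one hN (by
      rw [trc_conj M b (d - b) he, ← hξ, hT, show b + (d - b) = d by ring, hb2, hd2]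
      have e1 : 1 / (η + ε) * (m * η) ≤ m := by
        rw [one_div, inv_mul_le_iff₀ h2]
        nlinarith
      have e2 : 1 / (ξ + ε) * ξ ≤ 1 := by
        rw [one_div, inv_mul_le_iff₀ h1]
        nlinarith
      linarith)
    have e3 : (((rk b (d - b) e).comp (M.comp (rk b (d - b) e)) : Em m →L[ℝ] Em m) :
        Em m →ₗ[ℝ] Em m) = ((rk b (d - b) e : Em m →L[ℝ] Em m) : Em m →ₗ[ℝ] Em m) ∘ₗ
          ((M : Em m →ₗ[ℝ] Em m) ∘ₗ ((rk b (d - b) e : Em m →L[ℝ] Em m) : Em m →ₗ[ℝ] Em m)) := rfl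
    rw [e3, LinearMap.det_comp, LinearMap.det_comp, det_rk hb0, he] at hdet
    have e4 : b ^ m * (b + (d - b) * 1 ^ 2) *
        (LinearMap.det (M : Em m →ₗ[ℝ] Em m) * (b ^ m * (b + (d - b) * 1 ^ 2))) =
        LinearMap.det (M : Em m →ₗ[ℝ] Em m) * ((b ^ 2) ^ m * d ^ 2) := by
      rw [← pow_mul, mul_comm 2 m, pow_mul]
      ring
    rw [e4, hb2, hd2] at hdet
    have e5 : LinearMap.det (M : Em m →ₗ[ℝ] Em m) =
        LinearMap.det (M : Em m →ₗ[ℝ] Em m) * ((1 / (η + ε)) ^ m * (1 / (ξ + ε))) *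
          ((ξ + ε) * (η + ε) ^ m) := by
      rw [one_div, one_div, inv_pow]
      have h3 : (η + ε) ^ m ≠ 0 := by positivity
      field_simp
    rw [e5]
    calc _ ≤ 1 * ((ξ + ε) * (η + ε) ^ m) := by gcongr
      _ = _ := one_mul _
  have hcont : Tendsto (fun ε : ℝ => (ξ + ε) * (η + ε) ^ m) (𝓝[>] 0) (𝓝 (ξ * η ^ m)) := by
    have : Continuous fun ε : ℝ => (ξ + ε) * (η + ε) ^ m := by fun_prop
    have h := this.tendsto 0
    simp only [add_zero] at h
    exact h.mono_left nhdsWithin_le_nhds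
  exact ge_of_tendsto hcont (eventually_nhdsWithin_of_forall fun ε hε => key ε hε)

/-- The scalar inequality behind the determinant bound. -/
theorem scalar_ineq (hm : 1 ≤ m) {ω a b : ℝ} (hω0 : 0 ≤ ω) (hω1 : ω ≤ 1) (ha : 0 ≤ a) (hb : 0 ≤ b)
    (hab : ω * a + m * b = ω + m) : a * b ^ m ≤ ω + (1 - ω) * a := by
  have hm0 : (0 : ℝ) < m := by exact_mod_cast hm
  have h1 : b ^ m ≤ Real.exp (ω * (1 - a)) := by
    have h2 : b ≤ Real.exp (b - 1) := by
      have := Real.add_one_le_exp (b - 1)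
      linarith
    calc b ^ m ≤ Real.exp (b - 1) ^ m := pow_le_pow_left₀ hb h2 m
      _ = Real.exp (m * (b - 1)) := (Real.exp_nat_mul _ _).symm
      _ = Real.exp (ω * (1 - a)) := by
          congr 1
          linarith
  have h3 : Real.exp (ω * (1 - a)) ≤ ω * Real.exp (1 - a) + (1 - ω) := by
    have h := convexOn_exp.2 (mem_univ (1 - a)) (mem_univ 0) hω0 (by linarith : 0 ≤ 1 - ω)
      (by ring)
    simp only [smul_eq_mul, mul_zero, add_zero, Real.exp_zero, mul_one] at h
    exact h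
  have h4 : a * Real.exp (1 - a) ≤ 1 := by
    have h5 : a ≤ Real.exp (a - 1) := by
      have := Real.add_one_le_exp (a - 1)
      linarith
    calc a * Real.exp (1 - a) ≤ Real.exp (a - 1) * Real.exp (1 - a) := by gcongr
      _ = 1 := by rw [← Real.exp_add]; simp
  calc a * b ^ m ≤ a * (ω * Real.exp (1 - a) + (1 - ω)) := by
        gcongr
        exact h1.trans h3
    _ = ω * (a * Real.exp (1 - a)) + (1 - ω) * a := by ring
    _ ≤ ω * 1 + (1 - ω) * a := by gcongr
    _ = ω + (1 - ω) * a := by ring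

/-- Scaled form of the scalar inequality. -/
theorem scalar_ineq' (hm : 1 ≤ m) {ω θ a b : ℝ} (hω0 : 0 < ω) (hω1 : ω ≤ 1)
    (ha : 0 ≤ a) (hb : 0 ≤ b) (hab : ω * a + m * b ≤ θ * (ω + m)) :
    (θ ^ m)⁻¹ * ((ω + m) * (a * b ^ m)) ≤ m * ω * b + (ω + m * (1 - ω)) * a := by
  have hm0 : (0 : ℝ) < m := by exact_mod_cast hm
  have hs : 0 < ω + m := by positivity
  set l : ℝ := (ω * a + m * b) / (ω + m) with hl
  have hl0 : 0 ≤ l := by positivity
  have hlθ : l ≤ θ := by
    rw [hl, div_le_iff₀ hs]; exact hab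
  rcases hl0.eq_or_lt with h0 | h0
  · have : ω * a + m * b = 0 := by
      rw [eq_comm, hl, div_eq_zero_iff] at h0
      rcases h0 with h | h
      · exact h
      · exact absurd h hs.ne'
    have ha0 : a = 0 := by
      have : ω * a ≤ 0 := by nlinarith [mul_nonneg hm0.le hb]
      have : a ≤ 0 := by
        by_contra hc
        push Not at hc
        have := mul_pos hω0 hc
        linarith
      linarith
    rw [ha0]
    simp only [zero_mul, mul_zero, add_zero]
    positivity
  · have h1 := scalar_ineq hm hω0.le hω1 (a := a / l) (b := b / l) (by positivity) (by positivity)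
      (by
        have : ω * a + m * b = l * (ω + m) := by rw [hl]; field_simp
        field_simp
        linarith)
    have h2 : (θ ^ m)⁻¹ ≤ (l ^ m)⁻¹ := by
      apply inv_anti₀ (by positivity)
      exact pow_le_pow_left₀ hl0 hlθ m
    calc (θ ^ m)⁻¹ * ((ω + m) * (a * b ^ m)) ≤ (l ^ m)⁻¹ * ((ω + m) * (a * b ^ m)) := by gcongr
      _ = l * (ω + m) * (a / l * (b / l) ^ m) := by
          rw [div_pow b l m]; field_simp
      _ ≤ l * (ω + m) * (ω + (1 - ω) * (a / l)) := by gcongr
      _ = m * ω * b + (ω + m * (1 - ω)) * a := by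
          have : ω * a + m * b = l * (ω + m) := by rw [hl]; field_simp
          field_simp
          linear_combination (-ω) * this

end Pool.Agent.RobinBall.Rad
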