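import Mathlib

/-!
# Entire solutions of the radial equation

`F a σ = ∑ cf a k σ ^ k` solves `4 σ F'' + 2 a F' = F`, with `F' = F (a + 2) / (2 a)`.
-/

set_option autoImplicit false

namespace Pool.Agent.RobinBall.Rad

/-- Coefficients of the power series. -/
noncomputable def cf (a : ℝ) : ℕ → ℝ
  | 0 => 1
  | k + 1 => cf a k / (2 * ((k : ℝ) + 1) * (2 * (k : ℝ) + a))

theorem cf_pos {a : ℝ} (ha : 1 ≤ a) (k : ℕ) : 0 < cf a k := by
  induction k with
  | zero => simp [cf]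
  | succ k ih =>
    rw [cf]
    have : (0 : ℝ) ≤ k := Nat.cast_nonneg k
    positivity

theorem cf_shift {a : ℝ} (ha : 1 ≤ a) (k : ℕ) :
    ((k : ℝ) + 1) * cf a (k + 1) = cf (a + 2) k / (2 * a) := by
  have ha0 : 0 < a := by linarith
  induction k with
  | zero =>
    simp only [cf]
    push_cast
    field_simp
    ring
  | succ k ih =>
    have hk : (0 : ℝ) ≤ k := Nat.cast_nonneg k
    have h1 : cf a (k + 1 + 1) =
        cf a (k + 1) / (2 * (((k + 1 : ℕ) : ℝ) + 1) * (2 * ((k + 1 : ℕ) : ℝ) + a)) := rfl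
    have h2 : cf (a + 2) (k + 1) = cf (a + 2) k / (2 * ((k : ℝ) + 1) * (2 * (k : ℝ) + (a + 2))) :=
      rfl
    have h3 : cf (a + 2) k = (2 * a) * (((k : ℝ) + 1) * cf a (k + 1)) := by
      rw [ih]; field_simp
    rw [h1, h2, h3]
    push_cast
    have h4 : (2 * ((k : ℝ) + 1) + a) ≠ 0 := by positivity
    have h5 : (2 * (k : ℝ) + (a + 2)) ≠ 0 := by positivity
    have h6 : ((k : ℝ) + 1) ≠ 0 := by positivity
    have h7 : ((k : ℝ) + 1 + 1) ≠ 0 := by positivity
    field_simp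
    ring

theorem cf_le {a : ℝ} (ha : 1 ≤ a) (k : ℕ) : cf a k ≤ 1 / (k.factorial : ℝ) := by
  induction k with
  | zero => simp [cf]
  | succ k ih =>
    have hk : (0 : ℝ) ≤ k := Nat.cast_nonneg k
    rw [cf, Nat.factorial_succ]
    push_cast
    have h0 : 0 < (k.factorial : ℝ) := by positivity
    have h1 : cf a k / (2 * ((k : ℝ) + 1) * (2 * (k : ℝ) + a)) ≤ cf a k / ((k : ℝ) + 1) := by
      apply div_le_div_of_nonneg_left (cf_pos ha k).le (by positivity)
      nlinarith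
    calc cf a k / (2 * ((k : ℝ) + 1) * (2 * (k : ℝ) + a)) ≤ cf a k / ((k : ℝ) + 1) := h1
      _ ≤ (1 / (k.factorial : ℝ)) / ((k : ℝ) + 1) := by gcongr
      _ = 1 / (((k : ℝ) + 1) * (k.factorial : ℝ)) := by field_simp

theorem cf_summable {a : ℝ} (ha : 1 ≤ a) (σ : ℝ) : Summable fun k => cf a k * σ ^ k := by
  apply Summable.of_norm_bounded (Real.summable_pow_div_factorial |σ|)
  intro k
  rw [norm_mul, norm_pow, Real.norm_eq_abs, Real.norm_eq_abs, abs_of_pos (cf_pos ha k)]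
  calc cf a k * |σ| ^ k ≤ (1 / (k.factorial : ℝ)) * |σ| ^ k := by
        gcongr
        exact cf_le ha k
    _ = |σ| ^ k / (k.factorial : ℝ) := by ring

/-- The entire function. -/
noncomputable def F (a σ : ℝ) : ℝ := ∑' k, cf a k * σ ^ k

theorem F_one_le {a : ℝ} (ha : 1 ≤ a) {σ : ℝ} (hσ : 0 ≤ σ) : 1 ≤ F a σ := by
  have h := (cf_summable ha σ).le_tsum 0 (fun k _ => by
    have := cf_pos ha k
    positivity)
  simpa [cf, F] using h

theorem F_hasDerivAt {a : ℝ} (ha : 1 ≤ a) (σ : ℝ) : HasDerivAt (F a) (F (a + 2) σ / (2 * a)) σ := by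
  have ha2 : 1 ≤ a + 2 := by linarith
  obtain ⟨R, hR⟩ : ∃ R : ℝ, |σ| < R := exists_gt _
  have hR0 : 0 < R := lt_of_le_of_lt (abs_nonneg _) hR
  have hterm : ∀ (k : ℕ) (t : ℝ), ((k + 1 : ℕ) : ℝ) * cf a (k + 1) * t ^ (k + 1 - 1) =
      cf (a + 2) k * t ^ k / (2 * a) := by
    intro k t
    have := cf_shift ha k
    rw [Nat.add_sub_cancel]
    push_cast
    rw [this]
    ring
  have hu : Summable fun k : ℕ => (k : ℝ) * cf a k * R ^ (k - 1) := by
    rw [← summable_nat_add_iff 1]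
    have : (fun k : ℕ => ((k + 1 : ℕ) : ℝ) * cf a (k + 1) * R ^ (k + 1 - 1)) =
        fun k => cf (a + 2) k * R ^ k / (2 * a) := by
      funext k; exact hterm k R
    rw [this]
    exact (cf_summable ha2 R).div_const _
  have key := hasDerivAt_tsum_of_isPreconnected (g := fun (k : ℕ) (t : ℝ) => cf a k * t ^ k)
    (g' := fun (k : ℕ) (t : ℝ) => (k : ℝ) * cf a k * t ^ (k - 1)) (t := Metric.ball (0 : ℝ) R)
    (y₀ := σ) (y := σ) hu Metric.isOpen_ball (convex_ball (0 : ℝ) R).isPreconnected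
    (fun k t _ => by
      have := (hasDerivAt_pow k t).const_mul (cf a k)
      exact this.congr_deriv (by ring))
    (fun k t ht => by
      rw [Metric.mem_ball, dist_zero_right] at ht
      rw [norm_mul, norm_mul, norm_pow, Real.norm_natCast, Real.norm_eq_abs,
        abs_of_pos (cf_pos ha k)]
      have := cf_pos ha k
      gcongr)
    (by rw [Metric.mem_ball, dist_zero_right]; exact hR) (cf_summable ha σ)
    (by rw [Metric.mem_ball, dist_zero_right]; exact hR)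
  have hs : ∑' k : ℕ, (k : ℝ) * cf a k * σ ^ (k - 1) = F (a + 2) σ / (2 * a) := by
    have hsum : Summable fun k : ℕ => (k : ℝ) * cf a k * σ ^ (k - 1) := by
      rw [← summable_nat_add_iff 1]
      have : (fun k : ℕ => ((k + 1 : ℕ) : ℝ) * cf a (k + 1) * σ ^ (k + 1 - 1)) =
          fun k => cf (a + 2) k * σ ^ k / (2 * a) := by
        funext k; exact hterm k σ
      rw [this]
      exact (cf_summable ha2 σ).div_const _
    rw [hsum.tsum_eq_zero_add]
    have : (fun k : ℕ => ((k + 1 : ℕ) : ℝ) * cf a (k + 1) * σ ^ (k + 1 - 1)) =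
        fun k => cf (a + 2) k * σ ^ k / (2 * a) := by
      funext k; exact hterm k σ
    rw [this, tsum_div_const]
    simp [F]
  rw [← hs]
  exact key

theorem F_continuous {a : ℝ} (ha : 1 ≤ a) : Continuous (F a) :=
  continuous_iff_continuousAt.2 fun σ => (F_hasDerivAt ha σ).continuousAt

theorem F_ode {a : ℝ} (ha : 1 ≤ a) (σ : ℝ) :
    4 * σ * (F (a + 4) σ / (4 * a * (a + 2))) + 2 * a * (F (a + 2) σ / (2 * a)) = F a σ := by
  have ha2 : 1 ≤ a + 2 := by linarith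
  have ha4 : 1 ≤ a + 4 := by linarith
  have ha0 : 0 < a := by linarith
  have e1 : ∀ k : ℕ, cf (a + 4) k = 2 * (a + 2) * (2 * a) * (((k : ℝ) + 2) * (k + 1) * cf a (k + 2))
      := by
    intro k
    have h1 := cf_shift ha2 k
    have h2 := cf_shift ha (k + 1)
    have h3 : a + 2 + 2 = a + 4 := by ring
    rw [h3] at h1
    push_cast at h2
    have h4 : cf (a + 4) k = 2 * (a + 2) * (((k : ℝ) + 1) * cf (a + 2) (k + 1)) := by
      rw [h1]; field_simp
    have h5 : cf (a + 2) (k + 1) = (2 * a) * (((k : ℝ) + 1 + 1) * cf a (k + 1 + 1)) := by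
      rw [h2]; field_simp
    rw [h4, h5]
    ring
  have e2 : ∀ k : ℕ, cf a k = 2 * ((k : ℝ) + 1) * (2 * k + a) * cf a (k + 1) := by
    intro k
    rw [cf]
    have hk : (0 : ℝ) ≤ k := Nat.cast_nonneg k
    have h4 : (2 * (k : ℝ) + a) ≠ 0 := by positivity
    field_simp
  have e3 : ∀ k : ℕ, cf (a + 2) k = 2 * a * (((k : ℝ) + 1) * cf a (k + 1)) := by
    intro k
    rw [cf_shift ha k]
    field_simp
  -- 4 σ * term = ∑ 4 (k+1) k c_{k+1} σ^k
  have s1 : 4 * σ * (F (a + 4) σ / (4 * a * (a + 2))) =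
      ∑' k : ℕ, 4 * ((k : ℝ) + 1) * k * cf a (k + 1) * σ ^ k := by
    have hsum : Summable fun k : ℕ => 4 * ((k : ℝ) + 1) * k * cf a (k + 1) * σ ^ k := by
      rw [← summable_nat_add_iff 1]
      have : (fun k : ℕ => 4 * (((k + 1 : ℕ) : ℝ) + 1) * ((k + 1 : ℕ) : ℝ) * cf a (k + 1 + 1) *
          σ ^ (k + 1)) = fun k => (σ / (a * (a + 2))) * (cf (a + 4) k * σ ^ k) := by
        funext k
        rw [e1 k]
        push_cast
        field_simp
        ring
      rw [this]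
      exact (cf_summable ha4 σ).mul_left _
    rw [hsum.tsum_eq_zero_add]
    have : (fun k : ℕ => 4 * (((k + 1 : ℕ) : ℝ) + 1) * ((k + 1 : ℕ) : ℝ) * cf a (k + 1 + 1) *
          σ ^ (k + 1)) = fun k => (σ / (a * (a + 2))) * (cf (a + 4) k * σ ^ k) := by
      funext k
      rw [e1 k]
      push_cast
      field_simp
      ring
    rw [this, tsum_mul_left, F]
    simp only [Nat.cast_zero, mul_zero, zero_mul, zero_add]
    field_simp
  have s2 : 2 * a * (F (a + 2) σ / (2 * a)) =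
      ∑' k : ℕ, 2 * a * (((k : ℝ) + 1) * cf a (k + 1)) * σ ^ k := by
    have : (fun k : ℕ => 2 * a * (((k : ℝ) + 1) * cf a (k + 1)) * σ ^ k) =
        fun k => cf (a + 2) k * σ ^ k := by
      funext k; rw [e3 k]
    rw [this, F]
    field_simp
  have hs1 : Summable fun k : ℕ => 4 * ((k : ℝ) + 1) * k * cf a (k + 1) * σ ^ k := by
    rw [← summable_nat_add_iff 1]
    have : (fun k : ℕ => 4 * (((k + 1 : ℕ) : ℝ) + 1) * ((k + 1 : ℕ) : ℝ) * cf a (k + 1 + 1) *
        σ ^ (k + 1)) = fun k => (σ / (a * (a + 2))) * (cf (a + 4) k * σ ^ k) := by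
      funext k
      rw [e1 k]
      push_cast
      field_simp
      ring
    rw [this]
    exact (cf_summable ha4 σ).mul_left _
  have hs2 : Summable fun k : ℕ => 2 * a * (((k : ℝ) + 1) * cf a (k + 1)) * σ ^ k := by
    have : (fun k : ℕ => 2 * a * (((k : ℝ) + 1) * cf a (k + 1)) * σ ^ k) =
        fun k => cf (a + 2) k * σ ^ k := by
      funext k; rw [e3 k]
    rw [this]
    exact cf_summable ha2 σ
  rw [s1, s2, ← hs1.tsum_add hs2, F]
  congr 1
  funext k
  rw [e2 k]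
  ring

/-- `A, A1, A2` are a positive radial ground state of `Δ - κ²` in dimension `m + 1`, as a function
of the squared radius, with its first two derivatives. -/
structure IsRad (m : ℕ) (κ : ℝ) (A A1 A2 : ℝ → ℝ) : Prop where
  h0 : ∀ τ, HasDerivAt A (A1 τ) τ
  h1 : ∀ τ, HasDerivAt A1 (A2 τ) τ
  h2 : Continuous A2
  ode : ∀ τ, 4 * τ * A2 τ + 2 * (m + 1) * A1 τ = κ ^ 2 * A τ
  p0 : ∀ τ, 0 ≤ τ → 0 < A τ
  p1 : ∀ τ, 0 ≤ τ → 0 < A1 τ
  p2 : ∀ τ, 0 ≤ τ → 0 < A2 τ

theorem isRad_F (m : ℕ) {κ : ℝ} (hκ : 0 < κ) :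
    IsRad m κ (fun τ => F (m + 1) (κ ^ 2 * τ))
      (fun τ => κ ^ 2 * (F (m + 1 + 2) (κ ^ 2 * τ) / (2 * (m + 1))))
      (fun τ => κ ^ 4 * (F (m + 1 + 4) (κ ^ 2 * τ) / (4 * (m + 1) * (m + 1 + 2)))) := by
  have hm : (0 : ℝ) ≤ m := Nat.cast_nonneg m
  have ha : (1 : ℝ) ≤ m + 1 := by linarith
  have ha2 : (1 : ℝ) ≤ m + 1 + 2 := by linarith
  have ha4 : (1 : ℝ) ≤ m + 1 + 4 := by linarith
  have hl : ∀ τ : ℝ, HasDerivAt (fun τ => κ ^ 2 * τ) (κ ^ 2) τ := by
    intro τ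
    simpa using (hasDerivAt_id τ).const_mul (κ ^ 2)
  refine ⟨fun τ => ?_, fun τ => ?_, ?_, fun τ => ?_, fun τ hτ => ?_, fun τ hτ => ?_, fun τ hτ => ?_⟩
  · have := (F_hasDerivAt ha (κ ^ 2 * τ)).comp τ (hl τ)
    exact this.congr_deriv (by ring)
  · have := ((F_hasDerivAt ha2 (κ ^ 2 * τ)).comp τ (hl τ)).const_mul (κ ^ 2 / (2 * ((m : ℝ) + 1)))
    have h3 : (m : ℝ) + 1 + 2 + 2 = m + 1 + 4 := by ring
    rw [h3] at this
    have h4 : (fun τ => κ ^ 2 * (F (m + 1 + 2) (κ ^ 2 * τ) / (2 * (m + 1)))) =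
        fun y => κ ^ 2 / (2 * ((m : ℝ) + 1)) * (F (↑m + 1 + 2) ∘ HMul.hMul (κ ^ 2)) y := by
      funext y
      simp only [Function.comp]
      ring
    rw [h4]
    refine this.congr_deriv ?_
    field_simp
    ring
  · have := (F_continuous ha4).comp (continuous_const.mul continuous_id : Continuous fun τ : ℝ =>
      κ ^ 2 * τ)
    exact continuous_const.mul (this.div_const _)
  · have := F_ode ha (κ ^ 2 * τ)
    linear_combination (κ ^ 2) * this
  · exact lt_of_lt_of_le one_pos (F_one_le ha (by positivity))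
  · have := lt_of_lt_of_le one_pos (F_one_le ha2 (σ := κ ^ 2 * τ) (by positivity))
    positivity
  · have := lt_of_lt_of_le one_pos (F_one_le ha4 (σ := κ ^ 2 * τ) (by positivity))
    positivity

end Pool.Agent.RobinBall.Rad
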