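import Mathlib
import Pool.Agent.RobinBall.Rad.Bessel

/-!
# Scalar functions attached to the radial ground state
-/

set_option autoImplicit false

open Set Filter
open scoped Topology

namespace Pool.Agent.RobinBall.Rad

/-- Bundled radial ground state. -/
structure RD (m : ℕ) (κ : ℝ) where
  A : ℝ → ℝ
  A1 : ℝ → ℝ
  A2 : ℝ → ℝ
  isRad : IsRad m κ A A1 A2

namespace RD

variable {m : ℕ} {κ : ℝ} (R : RD m κ)

/-- Twice the logarithmic derivative. -/
noncomputable def y (τ : ℝ) : ℝ := 2 * R.A1 τ / R.A τ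

/-- Derivative of `y`. -/
noncomputable def yD (τ : ℝ) : ℝ := 2 * R.A2 τ / R.A τ - 2 * R.A1 τ ^ 2 / R.A τ ^ 2

/-- The function `2 A A'`. -/
noncomputable def P (τ : ℝ) : ℝ := 2 * R.A1 τ * R.A τ

/-- Derivative of `P`. -/
noncomputable def PD (τ : ℝ) : ℝ := 2 * R.A2 τ * R.A τ + 2 * R.A1 τ ^ 2

/-- The radial weight. -/
noncomputable def w (τ : ℝ) : ℝ := κ ^ 2 * R.A τ ^ 2 - 2 * m * R.A τ * R.A1 τ - 4 * τ * R.A1 τ ^ 2

/-- Derivative of `w`. -/
noncomputable def wD (τ : ℝ) : ℝ := 2 * m * (R.A1 τ ^ 2 - R.A τ * R.A2 τ)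

/-- The radial eigenvalue of the derivative of the field. -/
noncomputable def mu (τ : ℝ) : ℝ := R.w τ / R.A τ ^ 2

theorem y_hasDerivAt {τ : ℝ} (hτ : 0 ≤ τ) : HasDerivAt R.y (R.yD τ) τ := by
  have h := R.isRad
  have hA := (h.p0 τ hτ).ne'
  have := ((h.h1 τ).const_mul 2).div (h.h0 τ) hA
  refine this.congr_deriv ?_
  rw [yD]
  field_simp

theorem P_hasDerivAt (τ : ℝ) : HasDerivAt R.P (R.PD τ) τ := by
  have h := R.isRad
  have := ((h.h1 τ).const_mul 2).mul (h.h0 τ)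
  refine this.congr_deriv ?_
  rw [PD]
  ring

theorem w_hasDerivAt (τ : ℝ) : HasDerivAt R.w (R.wD τ) τ := by
  have h := R.isRad
  have hA2 := (h.h0 τ).pow 2
  have hA12 := (h.h1 τ).pow 2
  have hAA1 := (h.h0 τ).mul (h.h1 τ)
  have h4 := ((hasDerivAt_id τ).const_mul 4).mul hA12
  have := ((hA2.const_mul (κ ^ 2)).sub (hAA1.const_mul (2 * (m : ℝ)))).sub h4
  have e : R.w = fun τ => κ ^ 2 * R.A τ ^ 2 - 2 * m * (R.A τ * R.A1 τ) - 4 * id τ * R.A1 τ ^ 2 := by
    funext t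
    simp only [w, id]
    ring
  rw [e]
  refine this.congr_deriv ?_
  have ho := h.ode τ
  simp only [wD, id, Pi.pow_apply]
  push_cast
  linear_combination (-2 * R.A1 τ) * ho

theorem w_eq (τ : ℝ) : R.w τ = R.P τ - 4 * τ * (R.A1 τ ^ 2 - R.A τ * R.A2 τ) := by
  have ho := R.isRad.ode τ
  rw [w, P]
  linear_combination (-R.A τ) * ho

theorem w_zero : R.w 0 = R.P 0 := by
  rw [w_eq]; ring

theorem two_tau_wD (τ : ℝ) : 2 * τ * R.wD τ = m * (R.P τ - R.w τ) := by
  rw [w_eq, wD]; ring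

theorem y_pos {τ : ℝ} (hτ : 0 ≤ τ) : 0 < R.y τ := by
  have h := R.isRad
  have h0 := h.p0 τ hτ
  have h1 := h.p1 τ hτ
  rw [y]
  positivity

theorem P_pos {τ : ℝ} (hτ : 0 ≤ τ) : 0 < R.P τ := by
  have h := R.isRad
  have h0 := h.p0 τ hτ
  have h1 := h.p1 τ hτ
  rw [P]
  positivity

theorem P_eq {τ : ℝ} (hτ : 0 ≤ τ) : R.P τ = R.A τ ^ 2 * R.y τ := by
  have h0 := R.isRad.p0 τ hτ
  rw [P, y]
  field_simp

theorem w_eq' {τ : ℝ} (hτ : 0 ≤ τ) : R.w τ = R.A τ ^ 2 * R.mu τ := by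
  have h0 := R.isRad.p0 τ hτ
  rw [mu]
  field_simp

theorem mu_eq {τ : ℝ} (hτ : 0 ≤ τ) : R.mu τ = R.y τ + 2 * τ * R.yD τ := by
  have h0 := R.isRad.p0 τ hτ
  rw [mu, w_eq, P, y, yD]
  field_simp
  ring

theorem riccati {τ : ℝ} (hτ : 0 ≤ τ) :
    (m + 1) * R.y τ + 2 * τ * R.yD τ + τ * R.y τ ^ 2 = κ ^ 2 := by
  have h0 := R.isRad.p0 τ hτ
  have ho := R.isRad.ode τ
  rw [y, yD]
  field_simp
  linear_combination R.A τ * ho

theorem kappa_sub {τ : ℝ} (hτ : 0 ≤ τ) : κ ^ 2 - τ * R.y τ ^ 2 = R.mu τ + m * R.y τ := by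
  have := R.riccati hτ
  rw [R.mu_eq hτ]
  linear_combination -this

/-- Derivative of a function of the squared radius. -/
theorem hasDerivAt_sq {f : ℝ → ℝ} {f' r : ℝ} (hf : HasDerivAt f f' (r ^ 2)) :
    HasDerivAt (fun r => f (r ^ 2)) (f' * (2 * r)) r := by
  have h2 : HasDerivAt (fun r : ℝ => r ^ 2) (2 * r) r := by
    simpa using hasDerivAt_pow 2 r
  exact HasDerivAt.comp r hf h2

theorem rw_hasDerivAt (k : ℕ) (r : ℝ) :
    HasDerivAt (fun r : ℝ => r ^ (k + 1) * R.w (r ^ 2))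
      (r ^ k * ((k + 1 : ℝ) * R.w (r ^ 2) + m * (R.P (r ^ 2) - R.w (r ^ 2)))) r := by
  have h := (hasDerivAt_pow (k + 1) r).mul (hasDerivAt_sq (R.w_hasDerivAt (r ^ 2)))
  refine h.congr_deriv ?_
  have e := R.two_tau_wD (r ^ 2)
  rw [Nat.add_sub_cancel]
  push_cast
  linear_combination (r ^ k) * e

theorem w_pos (hm : 1 ≤ m) {τ : ℝ} (hτ : 0 ≤ τ) : 0 < R.w τ := by
  obtain ⟨k, rfl⟩ : ∃ k, m = k + 1 := ⟨m - 1, by omega⟩
  rcases hτ.eq_or_lt with h | h
  · rw [← h, w_zero]; exact R.P_pos le_rfl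
  · have hmono : StrictMonoOn (fun r : ℝ => r ^ (k + 1) * R.w (r ^ 2)) (Ici 0) := by
      apply strictMonoOn_of_deriv_pos (convex_Ici 0)
      · exact fun r _ => (R.rw_hasDerivAt k r).continuousAt.continuousWithinAt
      · intro r hr
        rw [interior_Ici, mem_Ioi] at hr
        rw [(R.rw_hasDerivAt k r).deriv]
        have hP := R.P_pos (τ := r ^ 2) (by positivity)
        have : ((k + 1 : ℝ) * R.w (r ^ 2) + ((k + 1 : ℕ) : ℝ) * (R.P (r ^ 2) - R.w (r ^ 2))) =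
            (k + 1) * R.P (r ^ 2) := by push_cast; ring
        rw [this]
        positivity
    have hs : 0 < Real.sqrt τ := Real.sqrt_pos.2 h
    have := hmono (a := 0) (b := Real.sqrt τ) (mem_Ici.2 le_rfl) (mem_Ici.2 hs.le) hs
    simp only [Real.sq_sqrt hτ] at this
    rw [zero_pow (by omega), zero_mul] at this
    exact pos_of_mul_pos_right this (by positivity)

theorem w_le_P {τ : ℝ} (hm : 1 ≤ m) (hτ : 0 ≤ τ) : R.w τ ≤ R.P τ := by
  obtain ⟨k, rfl⟩ : ∃ k, m = k + 1 := ⟨m - 1, by omega⟩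
  rcases hτ.eq_or_lt with h | h
  · rw [← h, w_zero]
  · have hd : ∀ r : ℝ, HasDerivAt (fun r : ℝ => r ^ (k + 1) * (R.P (r ^ 2) - R.w (r ^ 2)))
        (2 * r ^ (k + 2) * R.PD (r ^ 2)) r := by
      intro r
      have h := ((hasDerivAt_pow (k + 1) r).mul (hasDerivAt_sq (R.P_hasDerivAt (r ^ 2)))).sub
        (R.rw_hasDerivAt k r)
      have e : (fun r : ℝ => r ^ (k + 1) * (R.P (r ^ 2) - R.w (r ^ 2))) =
          fun r : ℝ => r ^ (k + 1) * R.P (r ^ 2) - r ^ (k + 1) * R.w (r ^ 2) := by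
        funext r; ring
      rw [e]
      refine h.congr_deriv ?_
      rw [Nat.add_sub_cancel]
      push_cast
      ring
    have hmono : MonotoneOn (fun r : ℝ => r ^ (k + 1) * (R.P (r ^ 2) - R.w (r ^ 2))) (Ici 0) := by
      apply monotoneOn_of_deriv_nonneg (convex_Ici 0)
      · exact fun r _ => (hd r).continuousAt.continuousWithinAt
      · exact fun r _ => (hd r).differentiableAt.differentiableWithinAt
      · intro r hr
        rw [interior_Ici, mem_Ioi] at hr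
        rw [(hd r).deriv, PD]
        have h0 := R.isRad.p0 (r ^ 2) (by positivity)
        have h2 := R.isRad.p2 (r ^ 2) (by positivity)
        positivity
    have hs : 0 < Real.sqrt τ := Real.sqrt_pos.2 h
    have := hmono (mem_Ici.2 le_rfl : (0 : ℝ) ∈ Ici 0) (mem_Ici.2 hs.le) hs.le
    simp only [Real.sq_sqrt hτ] at this
    rw [zero_pow (by omega), zero_mul] at this
    have h3 : 0 ≤ R.P τ - R.w τ := nonneg_of_mul_nonneg_right this (by positivity)
    linarith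

theorem mu_pos (hm : 1 ≤ m) {τ : ℝ} (hτ : 0 ≤ τ) : 0 < R.mu τ := by
  have h0 := R.isRad.p0 τ hτ
  have := R.w_pos hm hτ
  rw [mu]
  positivity

theorem mu_le_y (hm : 1 ≤ m) {τ : ℝ} (hτ : 0 ≤ τ) : R.mu τ ≤ R.y τ := by
  have h0 := R.isRad.p0 τ hτ
  have h1 := R.w_le_P hm hτ
  rw [R.w_eq' hτ, R.P_eq hτ] at h1
  exact le_of_mul_le_mul_left h1 (by positivity)

/-- The radial profile `r ↦ r y (r ^ 2)`. -/
noncomputable def g (r : ℝ) : ℝ := r * R.y (r ^ 2)

theorem g_hasDerivAt (r : ℝ) : HasDerivAt R.g (R.mu (r ^ 2)) r := by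
  have h := (hasDerivAt_id r).mul (hasDerivAt_sq (R.y_hasDerivAt (sq_nonneg r)))
  refine h.congr_deriv ?_
  rw [R.mu_eq (sq_nonneg r)]
  simp only [id]
  ring

theorem g_strictMono (hm : 1 ≤ m) : StrictMono R.g := by
  apply strictMono_of_deriv_pos
  intro r
  rw [(R.g_hasDerivAt r).deriv]
  exact R.mu_pos hm (sq_nonneg r)

theorem g_zero : R.g 0 = 0 := by simp [g]

theorem g_continuous : Continuous R.g :=
  continuous_iff_continuousAt.2 fun r => (R.g_hasDerivAt r).continuousAt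

/-- `r w (r ^ 2)` is strictly increasing. -/
theorem zw_strictMono (hm : 1 ≤ m) : StrictMono fun r : ℝ => r * R.w (r ^ 2) := by
  apply strictMono_of_deriv_pos
  intro r
  have h := R.rw_hasDerivAt 0 r
  have e : (fun r : ℝ => r ^ (0 + 1) * R.w (r ^ 2)) = fun r => r * R.w (r ^ 2) := by
    funext r; ring
  rw [e] at h
  rw [h.deriv]
  have h1 := R.w_pos hm (sq_nonneg r)
  have h2 := R.w_le_P hm (sq_nonneg r)
  have h3 : 0 ≤ (m : ℝ) * (R.P (r ^ 2) - R.w (r ^ 2)) :=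
    mul_nonneg (Nat.cast_nonneg m) (by linarith)
  have h4 : ((0 : ℕ) : ℝ) = 0 := Nat.cast_zero
  rw [pow_zero, h4]
  linarith

/-- Continuity facts. -/
theorem A_continuous : Continuous R.A :=
  continuous_iff_continuousAt.2 fun r => (R.isRad.h0 r).continuousAt

theorem A1_continuous : Continuous R.A1 :=
  continuous_iff_continuousAt.2 fun r => (R.isRad.h1 r).continuousAt

theorem w_continuous : Continuous R.w :=
  continuous_iff_continuousAt.2 fun r => (R.w_hasDerivAt r).continuousAt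

theorem P_continuous : Continuous R.P :=
  continuous_iff_continuousAt.2 fun r => (R.P_hasDerivAt r).continuousAt

theorem wD_continuous : Continuous R.wD := by
  have h1 := R.A_continuous
  have h2 := R.A1_continuous
  have h3 := R.isRad.h2
  unfold wD
  fun_prop

theorem w_contDiff : ContDiff ℝ 1 R.w := by
  rw [contDiff_one_iff_deriv]
  refine ⟨fun τ => (R.w_hasDerivAt τ).differentiableAt, ?_⟩
  have : deriv R.w = R.wD := by
    funext τ; exact (R.w_hasDerivAt τ).deriv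
  rw [this]
  exact R.wD_continuous

theorem A_contDiff : ContDiff ℝ 1 R.A := by
  rw [contDiff_one_iff_deriv]
  refine ⟨fun τ => (R.isRad.h0 τ).differentiableAt, ?_⟩
  have : deriv R.A = R.A1 := by
    funext τ; exact (R.isRad.h0 τ).deriv
  rw [this]
  exact R.A1_continuous

theorem A1_contDiff : ContDiff ℝ 1 R.A1 := by
  rw [contDiff_one_iff_deriv]
  refine ⟨fun τ => (R.isRad.h1 τ).differentiableAt, ?_⟩
  have : deriv R.A1 = R.A2 := by
    funext τ; exact (R.isRad.h1 τ).deriv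
  rw [this]
  exact R.isRad.h2

theorem y_contDiffAt {τ : ℝ} (hτ : 0 ≤ τ) : ContDiffAt ℝ 1 R.y τ := by
  have h0 := (R.isRad.p0 τ hτ).ne'
  exact (contDiffAt_const.mul R.A1_contDiff.contDiffAt).div R.A_contDiff.contDiffAt h0

end RD

end Pool.Agent.RobinBall.Rad
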