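import Mathlib
import Pool.Agent.RobinBall.Rad.Scalar
import Pool.Agent.RobinBall.Rad.Lin

/-!
# The radial vector fields
-/

set_option autoImplicit false

open Set Filter MeasureTheory Metric
open scoped Topology

namespace Pool.Agent.RobinBall.Rad

open Pool.Agent.RobinBall

variable {m : ℕ}

/-- The bundled ground state. -/
noncomputable def gs (m : ℕ) {κ : ℝ} (hκ : 0 < κ) : RD m κ where
  A := fun τ => F (m + 1) (κ ^ 2 * τ)
  A1 := fun τ => κ ^ 2 * (F (m + 1 + 2) (κ ^ 2 * τ) / (2 * (m + 1)))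
  A2 := fun τ => κ ^ 4 * (F (m + 1 + 4) (κ ^ 2 * τ) / (4 * (m + 1) * (m + 1 + 2)))
  isRad := isRad_F m hκ

/-- Normalised logarithmic derivative. -/
noncomputable def Y1 (m : ℕ) (σ : ℝ) : ℝ := F (m + 1 + 2) σ / ((m + 1) * F (m + 1) σ)

theorem gs_y {κ : ℝ} (hκ : 0 < κ) (τ : ℝ) : (gs m hκ).y τ = κ ^ 2 * Y1 m (κ ^ 2 * τ) := by
  simp only [RD.y, gs, Y1]
  have hm : (0 : ℝ) < m + 1 := by positivity
  rw [div_mul_eq_div_div, mul_div_assoc', mul_div_assoc', mul_div_assoc']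
  field_simp

theorem exists_kappa (hm : 1 ≤ m) {β ρ : ℝ} (hβ : 0 < β) (hρ : 0 < ρ) :
    ∃ κ : ℝ, 0 < κ ∧ ∃ R : RD m κ, R.g ρ = β := by
  have hm1 : (1 : ℝ) ≤ m + 1 := by
    have : (0 : ℝ) ≤ m := Nat.cast_nonneg m
    linarith
  have hm2 : (1 : ℝ) ≤ m + 1 + 2 := by linarith
  set φ : ℝ → ℝ := fun κ => ρ * (κ ^ 2 * Y1 m (κ ^ 2 * ρ ^ 2)) with hφ
  have hcont : Continuous φ := by
    have h1 : Continuous fun κ : ℝ => F (m + 1 + 2) (κ ^ 2 * ρ ^ 2) :=
      (F_continuous hm2).comp (by fun_prop)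
    have h2 : Continuous fun κ : ℝ => F (m + 1) (κ ^ 2 * ρ ^ 2) :=
      (F_continuous hm1).comp (by fun_prop)
    have h3 : ∀ κ : ℝ, ((m : ℝ) + 1) * F (m + 1) (κ ^ 2 * ρ ^ 2) ≠ 0 := by
      intro κ
      have := F_one_le hm1 (σ := κ ^ 2 * ρ ^ 2) (by positivity)
      positivity
    have h4 : Continuous fun κ : ℝ => Y1 m (κ ^ 2 * ρ ^ 2) := h1.div (continuous_const.mul h2) h3
    fun_prop
  have hg1 : ∀ r : ℝ, (gs m one_pos).g r = r * Y1 m (r ^ 2) := by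
    intro r
    rw [RD.g, gs_y]
    simp
  have hc : 0 < (gs m one_pos).g 1 := by
    have := (gs m one_pos).g_strictMono hm one_pos
    rwa [RD.g_zero] at this
  set c := (gs m one_pos).g 1 with hcdef
  set K : ℝ := max (1 / ρ) (β / c) with hK
  have hK0 : 0 < K := lt_of_lt_of_le (by positivity) (le_max_left _ _)
  have hKρ : 1 ≤ K * ρ := by
    have := le_max_left (1 / ρ) (β / c)
    rw [div_le_iff₀ hρ] at this
    exact this
  have hKβ : β ≤ K * c := by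
    have := le_max_right (1 / ρ) (β / c)
    rw [div_le_iff₀ hc] at this
    exact this
  have h5 : β ≤ φ K := by
    have h6 : φ K = K * (gs m one_pos).g (K * ρ) := by
      rw [hg1, hφ]
      simp only [mul_pow]
      ring
    rw [h6]
    exact hKβ.trans (mul_le_mul_of_nonneg_left
      (((gs m one_pos).g_strictMono hm).monotone hKρ) hK0.le)
  have h7 : φ 0 = 0 := by simp [hφ]
  obtain ⟨κ, hκ, hκβ⟩ := intermediate_value_Icc hK0.le hcont.continuousOn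
    (show β ∈ Icc (φ 0) (φ K) by rw [h7]; exact ⟨hβ.le, h5⟩)
  have hκ0 : 0 < κ := by
    rcases hκ.1.eq_or_lt with h | h
    · rw [← h, h7] at hκβ
      exact absurd hκβ hβ.ne
    · exact h
  refine ⟨κ, hκ0, gs m hκ0, ?_⟩
  rw [RD.g, gs_y]
  exact hκβ

/-- A radial vector field. -/
noncomputable def rad (φ : ℝ → ℝ) (x : Em m) : Em m := φ (‖x‖ ^ 2) • x

theorem rad_hasFDerivAt {φ : ℝ → ℝ} {φ' : ℝ} {x : Em m} (h : HasDerivAt φ φ' (‖x‖ ^ 2)) :
    HasFDerivAt (rad φ) (rk (φ (‖x‖ ^ 2)) (2 * φ') x) x := by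
  have h1 : HasFDerivAt (fun x : Em m => ‖x‖ ^ 2) (2 • (innerSL ℝ x)) x :=
    (hasStrictFDerivAt_norm_sq x).hasFDerivAt
  have h2 := h.comp_hasFDerivAt x h1
  have h3 := h2.smul (hasFDerivAt_id x)
  refine h3.congr_fderiv ?_
  ext1 v
  rw [rk_apply]
  simp only [Function.comp, add_apply, smul_apply,
    ContinuousLinearMap.smulRight_apply, ContinuousLinearMap.id_apply, innerSL_apply_apply, id,
    smul_eq_mul, nsmul_eq_mul]
  congr 2
  push_cast
  ring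

theorem rad_contDiffAt {φ : ℝ → ℝ} {x : Em m} (h : ContDiffAt ℝ 1 φ (‖x‖ ^ 2)) :
    ContDiffAt ℝ 1 (rad φ) x := by
  have h1 : ContDiffAt ℝ 1 (fun x : Em m => ‖x‖ ^ 2) x := (contDiff_norm_sq ℝ).contDiffAt
  exact (ContDiffAt.comp x h h1).smul contDiffAt_id

/-- The inverse of `rk`. -/
noncomputable def rkEquiv {b c : ℝ} {x : Em m} (hb : b ≠ 0) (hd : b + c * ‖x‖ ^ 2 ≠ 0) :
    Em m ≃L[ℝ] Em m :=
  ContinuousLinearEquiv.equivOfInverse (rk b c x) (rk b⁻¹ (-(c * b⁻¹ / (b + c * ‖x‖ ^ 2))) x)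
    (by
      intro v
      rw [← ContinuousLinearMap.comp_apply, rk_comp_rk]
      have h1 : b⁻¹ * b = 1 := inv_mul_cancel₀ hb
      have h2 : b⁻¹ * c + -(c * b⁻¹ / (b + c * ‖x‖ ^ 2)) * b +
          -(c * b⁻¹ / (b + c * ‖x‖ ^ 2)) * c * ‖x‖ ^ 2 = 0 := by
        field_simp
        ring
      rw [h1, h2, rk_apply]
      simp)
    (by
      intro v
      rw [← ContinuousLinearMap.comp_apply, rk_comp_rk]
      have h1 : b * b⁻¹ = 1 := mul_inv_cancel₀ hb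
      have h2 : b * -(c * b⁻¹ / (b + c * ‖x‖ ^ 2)) + c * b⁻¹ +
          c * -(c * b⁻¹ / (b + c * ‖x‖ ^ 2)) * ‖x‖ ^ 2 = 0 := by
        field_simp
        ring
      rw [h1, h2, rk_apply]
      simp)

theorem rkEquiv_coe {b c : ℝ} {x : Em m} (hb : b ≠ 0) (hd : b + c * ‖x‖ ^ 2 ≠ 0) :
    ((rkEquiv hb hd : Em m ≃L[ℝ] Em m) : Em m →L[ℝ] Em m) = rk b c x := rfl

theorem rkEquiv_symm_coe {b c : ℝ} {x : Em m} (hb : b ≠ 0) (hd : b + c * ‖x‖ ^ 2 ≠ 0) :
    ((rkEquiv hb hd : Em m ≃L[ℝ] Em m).symm : Em m →L[ℝ] Em m) =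
      rk b⁻¹ (-(c * b⁻¹ / (b + c * ‖x‖ ^ 2))) x := rfl

theorem invFun_facts {X : Em m → Em m} (hX : ContDiff ℝ 1 X) (hinj : Function.Injective X)
    {x : Em m} {L : Em m ≃L[ℝ] Em m} (hL : HasFDerivAt X (L : Em m →L[ℝ] Em m) x) :
    ContDiffAt ℝ 1 (Function.invFun X) (X x) ∧
      HasFDerivAt (Function.invFun X) (L.symm : Em m →L[ℝ] Em m) (X x) := by
  have hs := hX.contDiffAt.hasStrictFDerivAt' hL one_ne_zero
  have hinv : Function.LeftInverse (Function.invFun X) X := Function.leftInverse_invFun hinj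
  have hT : HasStrictFDerivAt (Function.invFun X) (L.symm : Em m →L[ℝ] Em m) (X x) :=
    hs.to_local_left_inverse (Eventually.of_forall hinv)
  refine ⟨?_, hT.hasFDerivAt⟩
  have h1 := hX.contDiffAt.to_localInverse hL one_ne_zero
  apply h1.congr_of_eventuallyEq
  have := hs.localInverse_unique (Eventually.of_forall hinv : ∀ᶠ y in 𝓝 x, _)
  exact this

theorem exists_dir (x : Em m) : ∃ e : Em m, ‖e‖ = 1 ∧ x = ‖x‖ • e := by
  by_cases hx : x = 0
  · obtain ⟨e, he⟩ := exists_norm_eq (Em m) zero_le_one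
    exact ⟨e, he, by simp [hx]⟩
  · refine ⟨‖x‖⁻¹ • x, norm_smul_inv_norm hx, ?_⟩
    rw [smul_smul, mul_inv_cancel₀ (norm_ne_zero_iff.2 hx), one_smul]

/-- Trace against a rank one perturbation in terms of the two eigenvalues. -/
theorem trc_rk_dir (b c : ℝ) (x e : Em m) (hx : x = ‖x‖ • e) (M : Em m →L[ℝ] Em m) :
    trc ((rk b c x).comp M) =
      b * (trc M - inner ℝ e (M e)) + (b + c * ‖x‖ ^ 2) * inner ℝ e (M e) := by
  have h : inner ℝ x (M x) = ‖x‖ ^ 2 * inner ℝ e (M e) := by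
    conv_lhs => rw [hx]
    rw [map_smul, real_inner_smul_left, real_inner_smul_right]
    ring
  rw [trc_rk_comp, h]
  ring

end Pool.Agent.RobinBall.Rad
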